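import Pool.Agent.TH15.MW.Slice

set_option autoImplicit false

/-! # Minima of the warping functions, volume and distance of the poles -/

namespace Pool.Agent.TH15.MW

open Real Set MeasureTheory Pool.Agent.H206R2.Rot
open scoped ContDiff

variable {N : ℕ} {k : Fin N → ℕ} {L : Fin N → ℝ} {f : Fin N → ℝ → ℝ}
  {a : Fin N → (Fin N → ℝ) → ℝ}

/-- the functions `a i` are periodic in all coordinates -/
lemma IsMetric.periodic (hM : IsMetric k L f a) (i j : Fin N) (r : Fin N → ℝ) :
    Function.Periodic (fun x => a i (Function.update r j x)) (2 * L j) := by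
  intro x
  rcases Nat.eq_or_lt_of_le (hM.dim j) with h | h
  · have h1 := hM.period i j (Function.update r j x) h.symm
    have h2 := hM.period i j (Function.update r j (x + L j)) h.symm
    simp only [Function.update_self, Function.update_idem] at h1 h2
    show a i (Function.update r j (x + 2 * L j)) = a i (Function.update r j x)
    rw [← h1, ← h2]
    congr 2
    ring
  · have h1 := hM.even i j (Function.update r j x) h
    have h2 := hM.even' i j (Function.update r j (-x)) h
    simp only [Function.update_self, Function.update_idem] at h1 h2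
    show a i (Function.update r j (x + 2 * L j)) = a i (Function.update r j x)
    rw [← h1, ← h2]
    congr 2
    ring

lemma IsMetric.reduce (hM : IsMetric k L f a) (i : Fin N) (r : Fin N → ℝ) (s : Finset (Fin N)) :
    ∃ r' : Fin N → ℝ, (∀ j ∈ s, r' j ∈ Set.Icc 0 (2 * L j)) ∧ a i r' = a i r := by
  classical
  induction s using Finset.induction_on with
  | empty => exact ⟨r, fun j hj => absurd hj (Finset.notMem_empty j), rfl⟩
  | insert j s _ ih =>
    obtain ⟨r', h1, h2⟩ := ih
    have hL : 0 < 2 * L j := by have := hM.len j; linarith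
    obtain ⟨y, hy1, hy2⟩ := (hM.periodic i j r').exists_mem_Ico₀ hL (r' j)
    refine ⟨Function.update r' j y, ?_, ?_⟩
    · intro l hl
      by_cases hlj : l = j
      · subst hlj
        rw [Function.update_self]
        exact ⟨hy1.1, hy1.2.le⟩
      · rw [Function.update_of_ne hlj]
        rcases Finset.mem_insert.1 hl with h | h
        · exact absurd h hlj
        · exact h1 l h
    · have h3 : a i (Function.update r' j (r' j)) = a i (Function.update r' j y) := hy2
      rw [Function.update_eq_self] at h3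
      rw [← h3, h2]

lemma IsMetric.exists_min (hM : IsMetric k L f a) (i : Fin N) :
    ∃ p : Fin N → ℝ, ∀ r, a i p ≤ a i r := by
  have hK : IsCompact (Set.pi Set.univ (fun j => Set.Icc 0 (2 * L j))) :=
    isCompact_univ_pi (fun j => isCompact_Icc)
  have hne : (Set.pi Set.univ (fun j : Fin N => Set.Icc 0 (2 * L j))).Nonempty := by
    refine ⟨fun _ => 0, fun j _ => ⟨le_rfl, ?_⟩⟩
    have := hM.len j
    show (0 : ℝ) ≤ 2 * L j
    linarith
  obtain ⟨p, _, hp⟩ := hK.exists_isMinOn hne (hM.smooth i).continuous.continuousOn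
  refine ⟨p, fun r => ?_⟩
  obtain ⟨r', h1, h2⟩ := hM.reduce i r Finset.univ
  rw [← h2]
  exact hp (fun j _ => h1 j (Finset.mem_univ j))

lemma IsMetric.cont_f (hM : IsMetric k L f a) (j : Fin N) : Continuous (f j) := by
  rcases Nat.eq_or_lt_of_le (hM.dim j) with h | h
  · rw [hM.one j h.symm]; exact continuous_const
  · exact (hM.profile j h).smooth.continuous

lemma IsMetric.f_nonneg (hM : IsMetric k L f a) (j : Fin N) {x : ℝ} (h0 : 0 ≤ x) (h1 : x ≤ L j) :
    0 ≤ f j x := by
  rcases Nat.eq_or_lt_of_le (hM.dim j) with h | h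
  · rw [hM.one j h.symm]; norm_num
  · have hP := hM.profile j h
    rcases h0.eq_or_lt with h2 | h2
    · have := hP.odd_zero 0
      rw [neg_zero] at this
      rw [← h2]; linarith
    · rcases h1.eq_or_lt with h3 | h3
      · have := hP.odd_L 0
        rw [add_zero, sub_zero] at this
        rw [h3]; linarith
      · exact (hP.fpos x h2 h3).le

/-- lower bound for the volume -/
lemma IsMetric.volume_ge (hM : IsMetric k L f a) (μ : Fin N → ℝ) (hμ : ∀ j, 0 < μ j)
    (hle : ∀ j r, μ j ≤ a j r) :
    ∏ j, (μ j ^ k j * ∫ x in (0 : ℝ)..L j, f j x ^ (k j - 1)) ≤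
      ∫ r in box L, ∏ j, (a j r ^ k j * f j (r j) ^ (k j - 1)) := by
  have hbox : IsCompact (box L) := isCompact_univ_pi (fun j => isCompact_Icc)
  have hmeas : MeasurableSet (box L) := hbox.measurableSet
  have h1 : ∫ r in box L, ∏ j, (μ j ^ k j * f j (r j) ^ (k j - 1))
      = ∏ j, (μ j ^ k j * ∫ x in (0 : ℝ)..L j, f j x ^ (k j - 1)) := by
    have e : (volume : Measure (Fin N → ℝ)).restrict (box L)
        = Measure.pi (fun j => (volume : Measure ℝ).restrict (Set.Icc 0 (L j))) := by
      unfold box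
      rw [volume_pi, Measure.restrict_pi_pi]
    rw [e]
    have := integral_fintype_prod_eq_prod (𝕜 := ℝ)
      (μ := fun j : Fin N => (volume : Measure ℝ).restrict (Set.Icc 0 (L j)))
      (fun (j : Fin N) (x : ℝ) => μ j ^ k j * f j x ^ (k j - 1))
    rw [this]
    refine Finset.prod_congr rfl (fun j _ => ?_)
    rw [integral_const_mul, intervalIntegral.integral_of_le (hM.len j).le,
      integral_Icc_eq_integral_Ioc]
  rw [← h1]
  refine setIntegral_mono_on ?_ ?_ hmeas ?_
  · refine ContinuousOn.integrableOn_compact hbox (Continuous.continuousOn ?_)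
    refine continuous_finsetProd _ (fun j _ => ?_)
    exact continuous_const.mul (((hM.cont_f j).comp (continuous_apply j)).pow _)
  · refine ContinuousOn.integrableOn_compact hbox (Continuous.continuousOn ?_)
    refine continuous_finsetProd _ (fun j _ => ?_)
    exact ((hM.smooth j).continuous.pow _).mul (((hM.cont_f j).comp (continuous_apply j)).pow _)
  · intro r hr
    refine Finset.prod_le_prod (fun j _ => ?_) (fun j _ => ?_)
    · have hj := hr j (Set.mem_univ j)
      exact mul_nonneg (pow_nonneg (hμ j).le _) (pow_nonneg (hM.f_nonneg j hj.1 hj.2) _)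
    · have hj := hr j (Set.mem_univ j)
      exact mul_le_mul_of_nonneg_right (pow_le_pow_left₀ (hμ j).le (hle j r) _)
        (pow_nonneg (hM.f_nonneg j hj.1 hj.2) _)

/-- coordinates of the poles -/
lemma pt_north {k : ℕ} {L r : ℝ} (hL : 0 < L) {u : EuclideanSpace ℝ (Fin k)}
    (h : pt k L r u = (0, 1)) : ∃ n : ℤ, r = 2 * hf k L * n := by
  unfold pt at h
  unfold hf
  split_ifs at h with hk
  · have h2 := congrArg Prod.snd h
    obtain ⟨n, hn⟩ := (Real.cos_eq_one_iff _).1 h2
    refine ⟨n, ?_⟩
    rw [if_pos hk]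
    have hpi := Real.pi_ne_zero
    field_simp at hn
    nlinarith
  · have h2 := congrArg Prod.snd h
    obtain ⟨n, hn⟩ := (Real.cos_eq_one_iff _).1 h2
    refine ⟨n, ?_⟩
    rw [if_neg hk]
    have hpi := Real.pi_ne_zero
    field_simp at hn
    nlinarith

lemma pt_south {k : ℕ} {L r : ℝ} (hL : 0 < L) {u : EuclideanSpace ℝ (Fin k)}
    (h : pt k L r u = (0, -1)) : ∃ n : ℤ, r = hf k L * (2 * n + 1) := by
  unfold pt at h
  unfold hf
  split_ifs at h with hk
  · have h2 := congrArg Prod.snd h
    obtain ⟨n, hn⟩ := (Real.cos_eq_neg_one_iff).1 h2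
    refine ⟨n, ?_⟩
    rw [if_pos hk]
    have hpi := Real.pi_ne_zero
    field_simp at hn
    linarith
  · have h2 := congrArg Prod.snd h
    obtain ⟨n, hn⟩ := (Real.cos_eq_neg_one_iff).1 h2
    refine ⟨n, ?_⟩
    rw [if_neg hk]
    have hpi := Real.pi_ne_zero
    field_simp at hn
    linarith

lemma hf_pos {k : ℕ} {L : ℝ} (hL : 0 < L) : 0 < hf k L := by
  unfold hf
  split_ifs <;> linarith

lemma continuous_speedSq (hM : IsMetric k L f a) {r : Fin N → ℝ → ℝ}
    {u : ∀ j, ℝ → EuclideanSpace ℝ (Fin (k j))} (hr : IsPath 1 k r u) :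
    Continuous (speedSq f a r u) := by
  unfold speedSq
  have hrc : Continuous (fun t => fun i => r i t) := continuous_pi (fun i => (hr.smooth_r i).continuous)
  refine continuous_finsetSum _ (fun j _ => ?_)
  refine (((hM.smooth j).continuous.comp hrc).pow 2).mul ?_
  unfold energy
  have h1 : Continuous (deriv (r j)) := (hr.smooth_r j).continuous_deriv le_rfl
  have h2 : Continuous (deriv (u j)) := (hr.smooth_u j).continuous_deriv le_rfl
  have h3 : Continuous (fun t => f j (r j t)) := (hM.cont_f j).comp (hr.smooth_r j).continuous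
  exact (h1.pow 2).add ((h3.pow 2).mul (h2.norm.pow 2))

/-- the distance of the poles -/
lemma poles_dist (hM : IsMetric k L f a) (j : Fin N) {μ : ℝ} (hμ : 0 < μ) (hle : ∀ r, μ ≤ a j r)
    {r : Fin N → ℝ → ℝ} {u : ∀ j, ℝ → EuclideanSpace ℝ (Fin (k j))} (hr : IsPath 1 k r u)
    (h0 : pt (k j) (L j) (r j 0) (u j 0) = (0, 1))
    (h1 : pt (k j) (L j) (r j 1) (u j 1) = (0, -1)) :
    μ * hf (k j) (L j) ≤ ∫ t in (0 : ℝ)..1, √(speedSq f a r u t) := by
  obtain ⟨n, hn⟩ := pt_north (hM.len j) h0
  obtain ⟨m, hm⟩ := pt_south (hM.len j) h1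
  have hD := hf_pos (k := k j) (hM.len j)
  have hdiff : hf (k j) (L j) ≤ |r j 1 - r j 0| := by
    rw [hm, hn]
    have e : hf (k j) (L j) * (2 * (m : ℝ) + 1) - 2 * hf (k j) (L j) * n
        = hf (k j) (L j) * ((2 * (m - n) + 1 : ℤ) : ℝ) := by
      push_cast; ring
    rw [e, abs_mul, abs_of_pos hD]
    have h2 : (1 : ℝ) ≤ |((2 * (m - n) + 1 : ℤ) : ℝ)| := by
      rw [← Int.cast_abs]
      have : (1 : ℤ) ≤ |2 * (m - n) + 1| := Int.one_le_abs (by omega)
      exact_mod_cast this
    nlinarith
  have hdc : Continuous (deriv (r j)) := (hr.smooth_r j).continuous_deriv le_rfl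
  have hint : r j 1 - r j 0 = ∫ t in (0 : ℝ)..1, deriv (r j) t := by
    rw [intervalIntegral.integral_deriv_eq_sub
      (fun x _ => ((hr.smooth_r j).differentiable (by norm_num)).differentiableAt)
      (hdc.intervalIntegrable _ _)]
  have h3 : |r j 1 - r j 0| ≤ ∫ t in (0 : ℝ)..1, |deriv (r j) t| := by
    rw [hint]
    exact intervalIntegral.abs_integral_le_integral_abs zero_le_one
  have h4 : ∫ t in (0 : ℝ)..1, μ * |deriv (r j) t| ≤ ∫ t in (0 : ℝ)..1, √(speedSq f a r u t) := by
    refine intervalIntegral.integral_mono_on zero_le_one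
      ((continuous_const.mul hdc.abs).intervalIntegrable _ _)
      ((continuous_speedSq hM hr).sqrt.intervalIntegrable _ _) (fun t _ => ?_)
    refine Real.le_sqrt_of_sq_le ?_
    rw [mul_pow, sq_abs]
    have h5 : μ ^ 2 ≤ a j (fun i => r i t) ^ 2 := pow_le_pow_left₀ hμ.le (hle _) 2
    have h6 : a j (fun i => r i t) ^ 2 * energy f r u j t ≤ speedSq f a r u t := by
      unfold speedSq
      refine Finset.single_le_sum (f := fun j => a j (fun i => r i t) ^ 2 * energy f r u j t)
        (fun l _ => ?_) (Finset.mem_univ j)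
      unfold energy
      positivity
    have h7 : deriv (r j) t ^ 2 ≤ energy f r u j t := by
      unfold energy
      have : 0 ≤ f j (r j t) ^ 2 * ‖deriv (u j) t‖ ^ 2 := by positivity
      linarith
    calc μ ^ 2 * deriv (r j) t ^ 2 ≤ a j (fun i => r i t) ^ 2 * energy f r u j t :=
          mul_le_mul h5 h7 (sq_nonneg _) (sq_nonneg _)
      _ ≤ speedSq f a r u t := h6
  rw [intervalIntegral.integral_const_mul] at h4
  calc μ * hf (k j) (L j) ≤ μ * |r j 1 - r j 0| := by gcongr
    _ ≤ μ * ∫ t in (0 : ℝ)..1, |deriv (r j) t| := by gcongr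
    _ ≤ _ := h4

end Pool.Agent.TH15.MW
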