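import Mathlib
import Pool.Agent.H206R2.Rot.Main

set_option autoImplicit false

/-!
# Generalised warped products of rotationally symmetric spheres and circles: definitions

The factors are `X_j = S^(k j)` with `dr² + f_j(r)² g_{S^(k j - 1)}`, `0 ≤ r ≤ L_j`, if `k j ≥ 2`,
and the circle of length `L_j` if `k j = 1`.  The metric on the product of the `X_j` is
`∑ a_j² g_j`, where `a_j > 0` is any smooth function of the coordinates `r_i`, `i ≠ j`.
-/

namespace Pool.Agent.TH15.MW

open Real Set MeasureTheory Pool.Agent.H206R2.Rot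
open scoped ContDiff

/-- The point of the factor with coordinates `r`, `u`: on the sphere `S^k ⊂ ℝ^k × ℝ`, `k ≥ 2`, the
point at distance `r` from the first pole in direction `u`; for `k = 1` the point with coordinate
`r` of the circle of length `L` (then `u` is the vector `1` of `ℝ^1`). -/
noncomputable def pt (k : ℕ) (L r : ℝ) (u : EuclideanSpace ℝ (Fin k)) :
    EuclideanSpace ℝ (Fin k) × ℝ :=
  if k = 1 then (Real.sin (2 * π * r / L) • u, Real.cos (2 * π * r / L)) else polar L r u

variable {N : ℕ}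

/-- The data `k`, `L`, `f`, `a` define a smooth Riemannian metric on the product of the spheres
`S^(k j)`, `k j ≥ 2`, and circles, `k j = 1`. -/
structure IsMetric (k : Fin N → ℕ) (L : Fin N → ℝ) (f : Fin N → ℝ → ℝ)
    (a : Fin N → (Fin N → ℝ) → ℝ) : Prop where
  dim : ∀ j, 1 ≤ k j
  len : ∀ j, 0 < L j
  profile : ∀ j, 2 ≤ k j → IsProfile (L j) (f j)
  one : ∀ j, k j = 1 → f j = fun _ => 1
  smooth : ∀ j, ContDiff ℝ ∞ (a j)
  pos : ∀ j r, 0 < a j r
  /-- `a j` does not depend on the coordinate `j` -/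
  indep : ∀ j r s, (∀ i, i ≠ j → r i = s i) → a j r = a j s
  /-- the functions `a i` are well defined on the circles -/
  period : ∀ i j r, k j = 1 → a i (Function.update r j (r j + L j)) = a i r
  /-- the functions `a i` are well defined and smooth on the spheres -/
  even : ∀ i j r, 2 ≤ k j → a i (Function.update r j (-r j)) = a i r
  even' : ∀ i j r, 2 ≤ k j → a i (Function.update r j (2 * L j - r j)) = a i r

/-- A curve of class `C^m` in the coordinates `r`, `u`. -/
structure IsPath (m : WithTop ℕ∞) (k : Fin N → ℕ) (r : Fin N → ℝ → ℝ)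
    (u : ∀ j, ℝ → EuclideanSpace ℝ (Fin (k j))) : Prop where
  smooth_r : ∀ j, ContDiff ℝ m (r j)
  smooth_u : ∀ j, ContDiff ℝ m (u j)
  unit : ∀ j t, ‖u j t‖ = 1
  circle : ∀ j, k j = 1 → ∀ t i, u j t i = 1

/-- The square of the speed of the component `j`, for the metric `g_j` of the factor. -/
noncomputable def energy {k : Fin N → ℕ} (f : Fin N → ℝ → ℝ) (r : Fin N → ℝ → ℝ)
    (u : ∀ j, ℝ → EuclideanSpace ℝ (Fin (k j))) (j : Fin N) (t : ℝ) : ℝ :=
  deriv (r j) t ^ 2 + f j (r j t) ^ 2 * ‖deriv (u j) t‖ ^ 2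

/-- The square of the speed of a curve for the metric `∑ a_j² g_j`. -/
noncomputable def speedSq {k : Fin N → ℕ} (f : Fin N → ℝ → ℝ) (a : Fin N → (Fin N → ℝ) → ℝ)
    (r : Fin N → ℝ → ℝ) (u : ∀ j, ℝ → EuclideanSpace ℝ (Fin (k j))) (t : ℝ) : ℝ :=
  ∑ j, a j (fun i => r i t) ^ 2 * energy f r u j t

/-- `γ` is a geodesic of speed `v` of the metric `∑ a_j² g_j`: the Euler-Lagrange equations of the
energy in the coordinates `r`, `u`. -/
def IsGeod (k : Fin N → ℕ) (L : Fin N → ℝ) (f : Fin N → ℝ → ℝ)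
    (a : Fin N → (Fin N → ℝ) → ℝ) (v : ℝ) (γ : ℝ → ∀ j, EuclideanSpace ℝ (Fin (k j)) × ℝ) :
    Prop :=
  ∃ (r : Fin N → ℝ → ℝ) (u : ∀ j, ℝ → EuclideanSpace ℝ (Fin (k j))),
    IsPath 2 k r u ∧ (∀ t j, γ t j = pt (k j) (L j) (r j t) (u j t)) ∧
    (∀ j t, a j (fun i => r i t) ^ 2 * deriv (deriv (r j)) t
      + 2 * a j (fun i => r i t) * deriv (fun s => a j (fun i => r i s)) t * deriv (r j) t
      = a j (fun i => r i t) ^ 2 * (f j (r j t) * deriv (f j) (r j t) * ‖deriv (u j) t‖ ^ 2)
        + ∑ l, a l (fun i => r i t) * fderiv ℝ (a l) (fun i => r i t) (Pi.single j 1)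
            * energy f r u l t) ∧
    (∀ j t, a j (fun i => r i t) • (f j (r j t) • deriv (deriv (u j)) t
        + (2 * deriv (f j) (r j t) * deriv (r j) t) • deriv (u j) t
        + (f j (r j t) * ‖deriv (u j) t‖ ^ 2) • u j t)
      + (2 * deriv (fun s => a j (fun i => r i s)) t * f j (r j t)) • deriv (u j) t = 0) ∧
    ∀ t, speedSq f a r u t = v ^ 2

/-- The integral `∫ sin^(k-1)` over `(0, π)`, and `2 π` for `k = 1`: the volume of the unit sphere
`S^k` is this number times the volume of the unit sphere `S^(k-1)` (times `1` for `k = 1`). -/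
noncomputable def W (k : ℕ) : ℝ := if k = 1 then 2 * π else ∫ t in (0 : ℝ)..π, Real.sin t ^ (k - 1)

/-- The box `∏ [0, L_j]` of the coordinates `r`. -/
def box (L : Fin N → ℝ) : Set (Fin N → ℝ) := Set.pi Set.univ (fun j => Set.Icc 0 (L j))

end Pool.Agent.TH15.MW
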