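import Pool.Agent.TH15.MW.Bounds

set_option autoImplicit false

/-! # The product of round spheres and circles -/

namespace Pool.Agent.TH15.MW

open Real Set MeasureTheory Pool.Agent.H206R2.Rot
open scoped ContDiff

variable {N : ℕ}

/-- lengths of the product of round unit spheres and circles of length `2 π` -/
noncomputable def rL (k : Fin N → ℕ) : Fin N → ℝ := fun j => if k j = 1 then 2 * π else π

/-- profile functions of the product of round unit spheres and circles of length `2 π` -/
noncomputable def rf (k : Fin N → ℕ) : Fin N → ℝ → ℝ :=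
  fun j => if k j = 1 then fun _ => 1 else Real.sin

lemma round_metric {k : Fin N → ℕ} (hk : ∀ j, 1 ≤ k j) :
    IsMetric k (rL k) (rf k) (fun _ _ => 1) where
  dim := hk
  len := fun j => by
    unfold rL
    have := Real.pi_pos
    split_ifs <;> linarith
  profile := fun j hj => by
    have h : k j ≠ 1 := by omega
    unfold rL rf
    rw [if_neg h, if_neg h]
    exact TG.round_profile
  one := fun j hj => by
    unfold rf
    rw [if_pos hj]
  smooth := fun _ => contDiff_const
  pos := fun _ _ => one_pos
  indep := fun _ _ _ _ => rfl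
  period := fun _ _ _ _ => rfl
  even := fun _ _ _ _ => rfl
  even' := fun _ _ _ _ => rfl

lemma inner_deriv_zero {n : ℕ} {u : ℝ → EuclideanSpace ℝ (Fin n)} (hu : ∀ t, HasDerivAt u (deriv u t) t)
    (h1 : ∀ t, ‖u t‖ = 1) (t : ℝ) : inner ℝ (u t) (deriv u t) = (0 : ℝ) := by
  have h := (hu t).norm_sq
  have h2 : (fun t => ‖u t‖ ^ 2) = fun _ => (1 : ℝ) := by
    funext s; rw [h1]; norm_num
  rw [h2] at h
  have h3 := h.unique (hasDerivAt_const t (1 : ℝ))
  linarith

lemma energy_const {n : ℕ} {f r : ℝ → ℝ} {u : ℝ → EuclideanSpace ℝ (Fin n)}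
    (hf : ContDiff ℝ 1 f) (hr : ContDiff ℝ 2 r) (hu : ContDiff ℝ 2 u) (h1 : ∀ t, ‖u t‖ = 1)
    (h2 : ∀ t, deriv (deriv r) t = f (r t) * deriv f (r t) * ‖deriv u t‖ ^ 2)
    (h3 : ∀ t, f (r t) • deriv (deriv u) t + (2 * deriv f (r t) * deriv r t) • deriv u t
      + (f (r t) * ‖deriv u t‖ ^ 2) • u t = 0) (t : ℝ) :
    deriv r t ^ 2 + f (r t) ^ 2 * ‖deriv u t‖ ^ 2 = deriv r 0 ^ 2 + f (r 0) ^ 2 * ‖deriv u 0‖ ^ 2 := by
  have hr1 : ∀ t, HasDerivAt r (deriv r t) t := fun t =>
    (hr.differentiable (by norm_num)).differentiableAt.hasDerivAt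
  have hr' : ContDiff ℝ 1 (deriv r) := by
    have h2' : ContDiff ℝ (1 + 1) r := by
      have : (1 + 1 : WithTop ℕ∞) = 2 := by norm_num
      rw [this]; exact hr
    exact (contDiff_succ_iff_deriv.1 h2').2.2
  have hr2 : ∀ t, HasDerivAt (deriv r) (deriv (deriv r) t) t := fun t =>
    (hr'.differentiable (by norm_num)).differentiableAt.hasDerivAt
  have hu1 : ∀ t, HasDerivAt u (deriv u t) t := fun t =>
    (hu.differentiable (by norm_num)).differentiableAt.hasDerivAt
  have hu' : ContDiff ℝ 1 (deriv u) := by
    have h2' : ContDiff ℝ (1 + 1) u := by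
      have : (1 + 1 : WithTop ℕ∞) = 2 := by norm_num
      rw [this]; exact hu
    exact (contDiff_succ_iff_deriv.1 h2').2.2
  have hu2 : ∀ t, HasDerivAt (deriv u) (deriv (deriv u) t) t := fun t =>
    (hu'.differentiable (by norm_num)).differentiableAt.hasDerivAt
  have hf1 : ∀ t, HasDerivAt (fun t => f (r t)) (deriv f (r t) * deriv r t) t := fun t =>
    ((hf.differentiable (by norm_num)).differentiableAt.hasDerivAt).comp t (hr1 t)
  have key : ∀ t, HasDerivAt (fun t => deriv r t ^ 2 + f (r t) ^ 2 * ‖deriv u t‖ ^ 2) 0 t := by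
    intro t
    have ha := ((hr2 t).pow 2).add (((hf1 t).pow 2).mul ((hu2 t).norm_sq))
    refine ha.congr_deriv ?_
    have e0 := inner_deriv_zero hu1 h1 t
    have e1 : f (r t) * inner ℝ (deriv u t) (deriv (deriv u) t)
        = -(2 * deriv f (r t) * deriv r t) * ‖deriv u t‖ ^ 2 := by
      have e2 := congrArg (fun w => inner ℝ (deriv u t) w) (h3 t)
      simp only [inner_add_right, inner_smul_right, inner_zero_right] at e2
      rw [real_inner_comm, real_inner_comm (u t), e0, real_inner_self_eq_norm_sq] at e2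
      rw [real_inner_comm]
      linarith
    simp only [Pi.pow_apply]
    rw [h2 t]
    have e3 : f (r t) ^ 2 * (2 * inner ℝ (deriv u t) (deriv (deriv u) t))
        = 2 * f (r t) * (-(2 * deriv f (r t) * deriv r t) * ‖deriv u t‖ ^ 2) := by
      rw [← e1]; ring
    rw [e3]
    push_cast
    ring
  exact is_const_of_deriv_eq_zero (fun t => (key t).differentiableAt) (fun t => (key t).deriv) t 0

lemma rf_smooth (k : Fin N → ℕ) (j : Fin N) : ContDiff ℝ 1 (rf k j) := by
  unfold rf
  split_ifs
  · exact contDiff_const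
  · exact Real.contDiff_sin

theorem round_opt {k : Fin N → ℕ} {v T : ℝ} (hv : 0 < v) (hT : 0 < T)
    {γ : ℝ → ∀ j, EuclideanSpace ℝ (Fin (k j)) × ℝ}
    (hγ : IsGeod k (rL k) (rf k) (fun _ _ => 1) v γ) (hper : ∀ t, γ (t + T) = γ t) :
    2 * π ≤ v * T := by
  obtain ⟨r, u, hp, he, h1, h2, h3⟩ := hγ
  have h1' : ∀ j t, deriv (deriv (r j)) t
      = rf k j (r j t) * deriv (rf k j) (r j t) * ‖deriv (u j) t‖ ^ 2 := by
    intro j t
    have := h1 j t
    simpa using this
  have h2' : ∀ j t, rf k j (r j t) • deriv (deriv (u j)) t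
        + (2 * deriv (rf k j) (r j t) * deriv (r j) t) • deriv (u j) t
        + (rf k j (r j t) * ‖deriv (u j) t‖ ^ 2) • u j t = 0 := by
    intro j t
    have := h2 j t
    simpa using this
  have hE : ∀ j t, energy (rf k) r u j t = energy (rf k) r u j 0 := by
    intro j t
    exact energy_const (rf_smooth k j) (hp.smooth_r j) (hp.smooth_u j) (hp.unit j) (h1' j)
      (h2' j) t
  have hE0 : ∀ j, 0 ≤ energy (rf k) r u j 0 := by
    intro j
    unfold energy
    positivity
  have hsum : ∑ j, energy (rf k) r u j 0 = v ^ 2 := by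
    have := h3 0
    unfold speedSq at this
    simpa using this
  obtain ⟨j, hj⟩ : ∃ j, 0 < energy (rf k) r u j 0 := by
    by_contra hne
    push Not at hne
    have : ∑ j, energy (rf k) r u j 0 ≤ 0 := Finset.sum_nonpos (fun j _ => hne j)
    rw [hsum] at this
    have := pow_pos hv 2
    linarith
  set w := √(energy (rf k) r u j 0) with hw
  have hw0 : 0 < w := Real.sqrt_pos.2 hj
  have hw2 : w ^ 2 = energy (rf k) r u j 0 := Real.sq_sqrt hj.le
  have hwv : w ≤ v := by
    rw [hw]
    refine Real.sqrt_le_iff.2 ⟨hv.le, ?_⟩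
    rw [← hsum]
    exact Finset.single_le_sum (fun i _ => hE0 i) (Finset.mem_univ j)
  have hEw : ∀ t, energy (rf k) r u j t = w ^ 2 := fun t => by rw [hE, hw2]
  suffices h : 2 * π ≤ w * T from h.trans (mul_le_mul_of_nonneg_right hwv hT.le)
  have hperj : ∀ t, γ (t + T) j = γ t j := fun t => congrFun (hper t) j
  by_cases hk : k j = 1
  · have hL : rL k j = 2 * π := by unfold rL; rw [if_pos hk]
    have hfj : rf k j = fun _ => 1 := by unfold rf; rw [if_pos hk]
    have hr1 : ∀ t, HasDerivAt (r j) (deriv (r j) t) t := fun t =>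
      ((hp.smooth_r j).differentiable (by norm_num)).differentiableAt.hasDerivAt
    have hr' : ContDiff ℝ 1 (deriv (r j)) := by
      have h2' : ContDiff ℝ (1 + 1) (r j) := by
        have : (1 + 1 : WithTop ℕ∞) = 2 := by norm_num
        rw [this]; exact hp.smooth_r j
      exact (contDiff_succ_iff_deriv.1 h2').2.2
    have hr2 : ∀ t, HasDerivAt (deriv (r j)) (deriv (deriv (r j)) t) t := fun t =>
      (hr'.differentiable (by norm_num)).differentiableAt.hasDerivAt
    have hr2' : ∀ t, HasDerivAt (deriv (r j)) 0 t := by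
      intro t
      refine (hr2 t).congr_deriv ?_
      rw [h1', hfj]
      simp
    have hu0 : ∀ t, deriv (u j) t = 0 := by
      intro t
      have hc : u j = fun _ => u j 0 := by
        funext s
        ext i
        rw [hp.circle j hk, hp.circle j hk]
      rw [hc]
      simp
    have hrw : ∀ t, deriv (r j) t ^ 2 = w ^ 2 := by
      intro t
      rw [← hEw t]
      unfold energy
      rw [hu0]
      simp
    have i0 : Fin (k j) := ⟨0, by omega⟩
    have hpi := Real.pi_ne_zero
    have hcos : ∀ t, Real.cos (r j (t + T)) = Real.cos (r j t) := by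
      intro t
      have := congrArg Prod.snd (hperj t)
      rw [he, he] at this
      unfold pt at this
      rw [if_pos hk, if_pos hk, hL] at this
      have e : ∀ x : ℝ, 2 * π * x / (2 * π) = x := fun x => by field_simp
      simpa only [e] using this
    have hsin : ∀ t, Real.sin (r j (t + T)) = Real.sin (r j t) := by
      intro t
      have := congrArg Prod.fst (hperj t)
      rw [he, he] at this
      unfold pt at this
      rw [if_pos hk, if_pos hk, hL] at this
      have e : ∀ x : ℝ, 2 * π * x / (2 * π) = x := fun x => by field_simp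
      simp only [e] at this
      have h5 := congrArg (fun z : EuclideanSpace ℝ (Fin (k j)) => z i0) this
      simpa only [PiLp.smul_apply, hp.circle j hk, smul_eq_mul, mul_one] using h5
    have hg1 : ∀ t, HasDerivAt (fun t => Real.cos (r j t - r j 0))
        (-Real.sin (r j t - r j 0) * deriv (r j) t) t := fun t =>
      ((hr1 t).sub_const (r j 0)).cos
    have hg2 : ∀ t, HasDerivAt (fun t => -Real.sin (r j t - r j 0) * deriv (r j) t)
        (-w ^ 2 * Real.cos (r j t - r j 0)) t := by
      intro t
      refine ((((hr1 t).sub_const (r j 0)).sin.neg).mul (hr2' t)).congr_deriv ?_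
      simp only [Pi.neg_apply]
      rw [← hrw t]
      ring
    refine TG.osc_period hw0 hT hg1 hg2 (fun t => ?_) ?_
    · rw [Real.cos_sub, Real.cos_sub, hcos, hsin]
    · simp
  · have hL : rL k j = π := by unfold rL; rw [if_neg hk]
    have hfj : rf k j = Real.sin := by unfold rf; rw [if_neg hk]
    have hg : IsGeodesic π Real.sin w (fun t => γ t j) := by
      refine ⟨r j, u j, hp.smooth_r j, hp.smooth_u j, hp.unit j, ?_, ?_, ?_, ?_⟩
      · intro t
        show γ t j = _
        rw [he, pt, if_neg hk, hL]
      · intro t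
        have := h1' j t
        rwa [hfj] at this
      · intro t
        have := h2' j t
        rwa [hfj] at this
      · intro t
        have := hEw t
        unfold energy at this
        rwa [hfj] at this
    exact TG.round_length hw0 hT hg hperj

end Pool.Agent.TH15.MW
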