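import Pool.Agent.TH15.MW.Defs

set_option autoImplicit false

/-! # Geodesics of the factors and of the slices -/

namespace Pool.Agent.TH15.MW

open Real Set MeasureTheory Pool.Agent.H206R2.Rot
open scoped ContDiff

variable {N : ℕ}

/-- A periodic unit speed geodesic of the factor. -/
structure FG (k : ℕ) (L : ℝ) (f : ℝ → ℝ) (ρ : ℝ → ℝ) (υ : ℝ → EuclideanSpace ℝ (Fin k))
    (τ : ℝ) : Prop where
  smooth_r : ContDiff ℝ 2 ρ
  smooth_u : ContDiff ℝ 2 υ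
  unit : ∀ t, ‖υ t‖ = 1
  circle : k = 1 → ∀ t i, υ t i = 1
  rad : ∀ t, deriv (deriv ρ) t = f (ρ t) * deriv f (ρ t) * ‖deriv υ t‖ ^ 2
  ang : ∀ t, f (ρ t) • deriv (deriv υ) t + (2 * deriv f (ρ t) * deriv ρ t) • deriv υ t
      + (f (ρ t) * ‖deriv υ t‖ ^ 2) • υ t = 0
  sp : ∀ t, deriv ρ t ^ 2 + f (ρ t) ^ 2 * ‖deriv υ t‖ ^ 2 = 1
  pos : 0 < τ
  per : ∀ t, pt k L (ρ (t + τ)) (υ (t + τ)) = pt k L (ρ t) (υ t)

/-- the vector with all coordinates one -/
noncomputable def ones (k : ℕ) : EuclideanSpace ℝ (Fin k) := WithLp.toLp 2 (fun _ => 1)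

lemma norm_ones_one : ‖ones 1‖ = 1 := by
  rw [EuclideanSpace.norm_eq]
  simp [ones]

lemma exists_unit {k : ℕ} (hk : 1 ≤ k) :
    ∃ e : EuclideanSpace ℝ (Fin k), ‖e‖ = 1 ∧ (k = 1 → ∀ i, e i = 1) := by
  rcases Nat.eq_or_lt_of_le hk with h | h
  · subst h
    exact ⟨ones 1, norm_ones_one, fun _ i => rfl⟩
  · obtain ⟨e, _, he, _, _⟩ := TG.exists_orthonormal_pair (n := k) (by omega)
    exact ⟨e, he, fun h' => absurd h' (by omega)⟩

/-- half the length of the meridian -/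
noncomputable def hf (k : ℕ) (L : ℝ) : ℝ := if k = 1 then L / 2 else L

lemma factor_meridian {k : ℕ} (hk : 1 ≤ k) {L : ℝ} (hL : 0 < L) (f : ℝ → ℝ) :
    ∃ ρ υ, FG k L f ρ υ (2 * hf k L) := by
  obtain ⟨e, he, he1⟩ := exists_unit hk
  refine ⟨fun t => t, fun _ => e, ⟨contDiff_id, contDiff_const, fun _ => he, fun h _ => he1 h,
    ?_, ?_, ?_, ?_, ?_⟩⟩
  · intro t; simp
  · intro t; simp
  · intro t; simp
  · unfold hf
    split_ifs <;> linarith
  · intro t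
    have hL' := hL.ne'
    unfold pt hf
    split_ifs with h
    · have : 2 * π * (t + 2 * (L / 2)) / L = 2 * π * t / L + 2 * π := by field_simp
      rw [this, Real.cos_add_two_pi, Real.sin_add_two_pi]
    · have : π * (t + 2 * L) / L = π * t / L + 2 * π := by field_simp
      simp only [polar, this, Real.cos_add_two_pi, Real.sin_add_two_pi]

lemma factor_short {k : ℕ} (hk : 1 ≤ k) {L : ℝ} (hL : 0 < L) {f : ℝ → ℝ}
    (hf2 : 2 ≤ k → IsProfile L f) :
    ∃ ρ υ τ, FG k L f ρ υ τ ∧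
      τ ^ k * W k ≤ (2 * π) ^ k * ∫ r in (0 : ℝ)..L, f r ^ (k - 1) := by
  rcases Nat.eq_or_lt_of_le hk with h | h
  · subst h
    obtain ⟨ρ, υ, hρ⟩ := factor_meridian (le_refl 1) hL f
    refine ⟨ρ, υ, _, hρ, ?_⟩
    simp only [hf, if_true, W, pow_one, Nat.sub_self, pow_zero]
    simp
    nlinarith [Real.pi_pos]
  · obtain ⟨γ, T, hT, ⟨r, u, h1, h2, h3, h4, h5, h6, h7⟩, hper, hle⟩ :=
      Main.short_geodesic (hf2 h) h
    refine ⟨r, u, T, ⟨h1, h2, h3, fun h' => absurd h' (by omega), h5, h6,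
      fun t => by rw [h7]; norm_num, hT, ?_⟩, ?_⟩
    · intro t
      have hk1 : k ≠ 1 := by omega
      unfold pt
      rw [if_neg hk1, if_neg hk1, ← h4, ← h4, hper]
    · unfold W
      rw [if_neg (by omega)]
      exact hle

/-- A geodesic of the factor `j` at a minimum of `a j`. -/
lemma slice {k : Fin N → ℕ} {L : Fin N → ℝ} {f : Fin N → ℝ → ℝ} {a : Fin N → (Fin N → ℝ) → ℝ}
    (hM : IsMetric k L f a) (j : Fin N) (p : Fin N → ℝ) (hp : ∀ r, a j p ≤ a j r)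
    {ρ : ℝ → ℝ} {υ : ℝ → EuclideanSpace ℝ (Fin (k j))} {τ : ℝ}
    (hF : FG (k j) (L j) (f j) ρ υ τ) :
    ∃ γ, IsGeod k L f a 1 γ ∧ ∀ t, γ (t + a j p * τ) = γ t := by
  set μ := a j p with hμd
  have hμ : 0 < μ := hM.pos j p
  have hμ0 : μ ≠ 0 := hμ.ne'
  choose e he he1 using fun i => exists_unit (hM.dim i)
  set r : Fin N → ℝ → ℝ := Function.update (fun i _ => p i) j (fun t => ρ (μ⁻¹ * t)) with hr
  set u : ∀ i, ℝ → EuclideanSpace ℝ (Fin (k i)) :=
    Function.update (fun i _ => e i) j (fun t => υ (μ⁻¹ * t)) with hu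
  have hrj : r j = fun t => ρ (μ⁻¹ * t) := Function.update_self _ _ _
  have huj : u j = fun t => υ (μ⁻¹ * t) := Function.update_self _ _ _
  have hri : ∀ i, i ≠ j → r i = fun _ => p i := fun i hi => Function.update_of_ne hi _ _
  have hui : ∀ i, i ≠ j → u i = fun _ => e i := fun i hi => Function.update_of_ne hi _ _
  have hd1 : ∀ t, deriv (r j) t = μ⁻¹ * deriv ρ (μ⁻¹ * t) := by
    intro t
    rw [hrj]
    have := deriv_comp_mul_left μ⁻¹ ρ t
    rwa [smul_eq_mul] at this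
  have hd2 : ∀ t, deriv (deriv (r j)) t = μ⁻¹ ^ 2 * deriv (deriv ρ) (μ⁻¹ * t) := by
    intro t
    have h1 : deriv (r j) = fun t => μ⁻¹ * deriv ρ (μ⁻¹ * t) := funext hd1
    rw [h1, deriv_const_mul_field]
    have := deriv_comp_mul_left μ⁻¹ (deriv ρ) t
    rw [smul_eq_mul] at this
    rw [this]
    ring
  have hv1 : ∀ t, deriv (u j) t = μ⁻¹ • deriv υ (μ⁻¹ * t) := by
    intro t
    rw [huj]
    exact deriv_comp_mul_left μ⁻¹ υ t
  have hv2 : ∀ t, deriv (deriv (u j)) t = μ⁻¹ ^ 2 • deriv (deriv υ) (μ⁻¹ * t) := by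
    intro t
    have h1 : deriv (u j) = fun t => μ⁻¹ • deriv υ (μ⁻¹ * t) := funext hv1
    rw [h1, deriv_fun_const_smul_field]
    rw [deriv_comp_mul_left μ⁻¹ (deriv υ) t, smul_smul, pow_two]
  have hnv : ∀ t, ‖deriv (u j) t‖ ^ 2 = μ⁻¹ ^ 2 * ‖deriv υ (μ⁻¹ * t)‖ ^ 2 := by
    intro t
    rw [hv1, norm_smul, mul_pow, Real.norm_eq_abs, sq_abs]
  have hen_j : ∀ t, energy f r u j t = μ⁻¹ ^ 2 := by
    intro t
    have h1 := hF.sp (μ⁻¹ * t)
    unfold energy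
    rw [hd1, hnv, hrj]
    have : (μ⁻¹ * deriv ρ (μ⁻¹ * t)) ^ 2
        + f j (ρ (μ⁻¹ * t)) ^ 2 * (μ⁻¹ ^ 2 * ‖deriv υ (μ⁻¹ * t)‖ ^ 2)
        = μ⁻¹ ^ 2 * (deriv ρ (μ⁻¹ * t) ^ 2
          + f j (ρ (μ⁻¹ * t)) ^ 2 * ‖deriv υ (μ⁻¹ * t)‖ ^ 2) := by ring
    rw [this, h1, mul_one]
  have hen_i : ∀ i, i ≠ j → ∀ t, energy f r u i t = 0 := by
    intro i hi t
    unfold energy
    rw [hri i hi, hui i hi]
    simp
  have hAj : ∀ t, a j (fun i => r i t) = μ := by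
    intro t
    refine hM.indep j _ _ (fun i hi => ?_)
    rw [hri i hi]
  have hdAj : ∀ t, deriv (fun s => a j (fun i => r i s)) t = 0 := by
    intro t
    have : (fun s => a j (fun i => r i s)) = fun _ => μ := funext hAj
    rw [this]
    simp
  have hfd : ∀ t, fderiv ℝ (a j) (fun i => r i t) = 0 := by
    intro t
    have h1 : IsLocalMin (a j) (fun i => r i t) :=
      Filter.Eventually.of_forall (fun x => by rw [hAj]; exact hp x)
    exact h1.fderiv_eq_zero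
  have hsum : ∀ i t, ∑ l, a l (fun i => r i t) * fderiv ℝ (a l) (fun i => r i t) (Pi.single i 1)
      * energy f r u l t = 0 := by
    intro i t
    refine Finset.sum_eq_zero (fun l _ => ?_)
    by_cases hl : l = j
    · rw [hl, hfd]; simp
    · rw [hen_i l hl, mul_zero]
  refine ⟨fun t i => pt (k i) (L i) (r i t) (u i t), ⟨r, u, ⟨?_, ?_, ?_, ?_⟩, fun _ _ => rfl,
    ?_, ?_, ?_⟩, ?_⟩
  · intro i
    by_cases hi : i = j
    · rw [hi, hrj]
      exact hF.smooth_r.comp (contDiff_const.mul contDiff_id)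
    · rw [hri i hi]; exact contDiff_const
  · intro i
    by_cases hi : i = j
    · subst hi
      rw [huj]
      exact hF.smooth_u.comp (contDiff_const.mul contDiff_id)
    · rw [hui i hi]; exact contDiff_const
  · intro i t
    by_cases hi : i = j
    · subst hi
      rw [huj]; exact hF.unit _
    · rw [hui i hi]; exact he i
  · intro i hk t i'
    by_cases hi : i = j
    · subst hi
      rw [huj]; exact hF.circle hk _ _
    · rw [hui i hi]; exact he1 i hk i'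
  · intro i t
    rw [hsum, add_zero]
    by_cases hi : i = j
    · subst hi
      rw [hdAj, hd2, hnv, hF.rad, hrj]
      ring
    · rw [hri i hi, hui i hi]
      simp
  · intro i t
    by_cases hi : i = j
    · subst hi
      have h := hF.ang (μ⁻¹ * t)
      rw [hdAj, hAj, hnv, hv2, hv1, hd1, hrj, huj]
      have e1 : μ • (f i (ρ (μ⁻¹ * t)) • μ⁻¹ ^ 2 • deriv (deriv υ) (μ⁻¹ * t)
          + (2 * deriv (f i) (ρ (μ⁻¹ * t)) * (μ⁻¹ * deriv ρ (μ⁻¹ * t))) •
            μ⁻¹ • deriv υ (μ⁻¹ * t)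
          + (f i (ρ (μ⁻¹ * t)) * (μ⁻¹ ^ 2 * ‖deriv υ (μ⁻¹ * t)‖ ^ 2)) • υ (μ⁻¹ * t))
          + (2 * 0 * f i (ρ (μ⁻¹ * t))) • μ⁻¹ • deriv υ (μ⁻¹ * t)
          = (μ * μ⁻¹ ^ 2) • (f i (ρ (μ⁻¹ * t)) • deriv (deriv υ) (μ⁻¹ * t)
            + (2 * deriv (f i) (ρ (μ⁻¹ * t)) * deriv ρ (μ⁻¹ * t)) • deriv υ (μ⁻¹ * t)
            + (f i (ρ (μ⁻¹ * t)) * ‖deriv υ (μ⁻¹ * t)‖ ^ 2) • υ (μ⁻¹ * t)) := by
        module
      rw [h, smul_zero] at e1
      exact e1
    · rw [hui i hi]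
      simp
  · intro t
    unfold speedSq
    rw [Finset.sum_eq_single j]
    · rw [hAj, hen_j]
      field_simp
    · intro i _ hi
      rw [hen_i i hi, mul_zero]
    · intro h; exact absurd (Finset.mem_univ j) h
  · intro t
    funext i
    by_cases hi : i = j
    · subst hi
      have h1 : μ⁻¹ * (t + μ * τ) = μ⁻¹ * t + τ := by field_simp
      show pt (k i) (L i) (r i (t + μ * τ)) (u i (t + μ * τ)) = pt (k i) (L i) (r i t) (u i t)
      rw [hrj, huj]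
      simp only [h1]
      exact hF.per _
    · show pt (k i) (L i) (r i (t + μ * τ)) (u i (t + μ * τ)) = pt (k i) (L i) (r i t) (u i t)
      rw [hri i hi, hui i hi]

end Pool.Agent.TH15.MW
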